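import Pool.Agent.W295.PR.Stm

set_option autoImplicit false

open Topology

namespace Pool.Agent.W431.PR.LT6

open Pool.Agent.W295.PR

variable {G : Type} [Group G] [TopologicalSpace G] [IsTopologicalGroup G]

lemma gpp_mem (N : Nil G) (D : ℕ) (e : ℤ) {u x v : G} (hu : u ∈ N.G0) (hx : x ∈ N.G0)
    (hv : v ∈ N.G0) : gpp N D e u x v ∈ PP N D :=
  Subgroup.subset_closure ⟨e, u, x, v, hu, hx, hv, rfl⟩

lemma pi_gpp (N : Nil G) (D : ℕ) (e : ℤ) (u x v : G) (q : RR D) :
    Abelianization.of (gpp N D e u x v q) =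
      Abelianization.of u ^ (ev D e q) * Abelianization.of x *
        (Abelianization.of v ^ (ev D e q))⁻¹ := by
  unfold gpp
  simp only [map_mul, map_inv, map_zpow, mul_zpow, mul_inv]
  rw [mul_comm (Abelianization.of u ^ ev D e q) (Abelianization.of N.a ^ ev D e q)]
  rw [mul_assoc, mul_assoc, mul_assoc, mul_comm (Abelianization.of N.a ^ ev D e q)]
  simp only [mul_assoc]
  simp

lemma lam_one {N : Nil G} {D : ℕ} {lam : (RR D → G) → Circle} (hl : Lam N D lam) : lam 1 = 1 := by
  have h := hl.mul 1 (one_mem _) 1 (one_mem _)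
  rw [mul_one] at h
  exact (mul_eq_left.1 h.symm)

lemma congr {N : Nil G} {D : ℕ} {lam : (RR D → G) → Circle} (hl : Lam N D lam) {M : ℕ}
    (hM : ∀ f ∈ PP N D, (∀ q, f q ∈ lcs G 1) → lam f ^ M = 1) {f f' : RR D → G}
    (hf : f ∈ PP N D) (hf' : f' ∈ PP N D)
    (h : ∀ q, Abelianization.of (f q) = Abelianization.of (f' q)) :
    lam f ^ M = lam f' ^ M := by
  have h1 : f * f'⁻¹ ∈ PP N D := mul_mem hf (inv_mem hf')
  have h2 : lam (f * f'⁻¹) ^ M = 1 := by
    refine hM _ h1 fun q => ?_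
    show f q * (f' q)⁻¹ ∈ (⊤ : Subgroup G).lowerCentralSeries 1
    rw [Subgroup.top_lowerCentralSeries_one, ← Abelianization.ker_of, MonoidHom.mem_ker, map_mul,
      map_inv, h q, mul_inv_cancel]
  have h3 : lam f = lam (f * f'⁻¹) * lam f' := by
    rw [← hl.mul _ h1 _ hf']
    congr 1
    group
  rw [h3, mul_pow, h2, one_mul]

lemma fin_roots {M : ℕ} (hM : 1 ≤ M) : {z : Circle | z ^ M = 1}.Finite := by
  have h : {z : ℂ | z ^ M = 1}.Finite := by
    refine ((Polynomial.nthRootsFinset M (1 : ℂ)).finite_toSet).subset fun z hz => ?_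
    simp only [Finset.mem_coe]
    exact (Polynomial.mem_nthRootsFinset hM (1 : ℂ)).2 hz
  refine (h.preimage (f := fun z : Circle => (z : ℂ)) (Subtype.val_injective.injOn)).subset
    fun z hz => ?_
  show (z : ℂ) ^ M = 1
  have : z ^ M = 1 := hz
  rw [← Circle.coe_pow, this, Circle.coe_one]

theorem main (h1 : S_EL) (h2 : S_LT2) (h3 : S_PPn) (h4 : S_EV) : S_LT6 := by
  intro G _ _ _ N D lam hl hMM
  obtain ⟨M, hM1, hM⟩ := hMM
  have one := N.G0.one_mem
  have hcg : ∀ {f f' : RR D → G}, f ∈ PP N D → f' ∈ PP N D →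
      (∀ q, Abelianization.of (f q) = Abelianization.of (f' q)) → lam f ^ M = lam f' ^ M :=
    fun hf hf' h => congr hl hM hf hf' h
  let χ : G → Circle := fun u => lam (gpp N D 1 u 1 1) ^ M
  have hχ : ∀ x ∈ N.G0, χ x = 1 := by
    refine h1 G N χ ?_ ?_ ?_ ?_ ?_
    · intro x hx y hy
      have e1 : lam (gpp N D 1 (x * y) 1 1) ^ M =
          lam (gpp N D 1 x 1 1 * gpp N D 1 y 1 1) ^ M := by
        refine hcg (gpp_mem N D 1 (mul_mem hx hy) one one)
          (mul_mem (gpp_mem N D 1 hx one one) (gpp_mem N D 1 hy one one)) fun q => ?_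
        rw [Pi.mul_apply, map_mul, pi_gpp, pi_gpp, pi_gpp, map_mul, mul_zpow]
        simp
      show lam (gpp N D 1 (x * y) 1 1) ^ M = lam (gpp N D 1 x 1 1) ^ M * lam (gpp N D 1 y 1 1) ^ M
      rw [e1, hl.mul _ (gpp_mem N D 1 hx one one) _ (gpp_mem N D 1 hy one one), mul_pow]
    · rw [continuousOn_iff_continuous_restrict]
      have hc : Continuous fun z : N.G0 => lam (gpp N D 1 (z : G) 1 1) := by
        refine hl.cont N.G0 (fun z => gpp N D 1 (z : G) 1 1)
          (fun z => gpp_mem N D 1 z.2 one one) fun q => ?_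
        unfold gpp
        fun_prop
      exact hc.pow M
    · intro x hx
      refine hcg (gpp_mem N D 1 (N.normal.conj_mem x hx N.a) one one)
        (gpp_mem N D 1 hx one one) fun q => ?_
      rw [pi_gpp, pi_gpp]
      have : (Abelianization.of (N.a * x * N.a⁻¹) : Abelianization G) = Abelianization.of x := by
        rw [map_mul, map_mul, map_inv, mul_comm, inv_mul_cancel_left]
      rw [this]
    · intro γ hγ hγ0
      have hc0 : N.g0⁻¹ ∈ N.G0 := inv_mem N.g0_mem
      have hmem := gpp_mem N D 1 (mul_mem hγ0 hc0) one hc0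
      have hf : lam (gpp N D 1 (γ * N.g0⁻¹) 1 N.g0⁻¹) = 1 := by
        refine hl.fixw _ hmem fun q => ?_
        unfold gpp
        refine mul_mem (mul_mem (zpow_mem ?_ _) (one_mem _)) (inv_mem (zpow_mem N.gam_mem _))
        rw [mul_assoc]
        exact mul_mem hγ N.gam_mem
      have e1 : χ γ = lam (gpp N D 1 (γ * N.g0⁻¹) 1 N.g0⁻¹) ^ M := by
        refine hcg (gpp_mem N D 1 hγ0 one one) hmem fun q => ?_
        rw [pi_gpp, pi_gpp, map_mul, mul_zpow]
        simp
      rw [e1, hf, one_pow]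
    · have hc0 : N.g0⁻¹ ∈ N.G0 := inv_mem N.g0_mem
      have hmem := gpp_mem N D 1 one one hc0
      have hf : lam (gpp N D 1 1 1 N.g0⁻¹) = 1 := by
        have := hl.base
        rw [← this]
        congr 1
        funext q
        unfold gpp
        rw [one_mul, mul_one]
      have e1 : χ N.g0 = lam (gpp N D 1 1 1 N.g0⁻¹) ^ M := by
        refine hcg (gpp_mem N D 1 N.g0_mem one one) hmem fun q => ?_
        rw [pi_gpp, pi_gpp]
        simp
      rw [e1, hf, one_pow]
  have hroot : ∀ u ∈ N.G0, ∀ v ∈ N.G0, lam (gpp N D 1 u 1 v) ^ M = 1 := by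
    intro u hu v hv
    rw [← hχ (u * v⁻¹) (mul_mem hu (inv_mem hv))]
    refine hcg (gpp_mem N D 1 hu one hv)
      (gpp_mem N D 1 (mul_mem hu (inv_mem hv)) one one) fun q => ?_
    rw [pi_gpp, pi_gpp, map_mul, mul_zpow]
    simp
  have hone : lam (gpp N D 1 1 1 1) = 1 := by
    rw [← lam_one hl]
    congr 1
    funext q
    unfold gpp
    simp
  have hall : ∀ u ∈ N.G0, ∀ v ∈ N.G0, lam (gpp N D 1 u 1 v) = 1 := by
    have hpc : IsPreconnected (Set.univ : Set (N.G0 × N.G0)) := by
      haveI : PreconnectedSpace N.G0 := isPreconnected_iff_preconnectedSpace.1 N.conn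
      exact isPreconnected_univ
    have hc : Continuous fun z : N.G0 × N.G0 => lam (gpp N D 1 (z.1 : G) 1 (z.2 : G)) := by
      refine hl.cont (N.G0 × N.G0) (fun z => gpp N D 1 (z.1 : G) 1 (z.2 : G))
        (fun z => gpp_mem N D 1 z.1.2 one z.2.2) fun q => ?_
      unfold gpp
      fun_prop
    intro u hu v hv
    have hfin := fin_roots hM1
    haveI : Finite {z : Circle | z ^ M = 1} := hfin
    have hd : IsDiscrete {z : Circle | z ^ M = 1} := hfin.isDiscrete
    have := hpc.constant_of_mapsTo hd hc.continuousOn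
      (fun z _ => hroot z.1 z.1.2 z.2 z.2.2) (Set.mem_univ (⟨⟨u, hu⟩, ⟨v, hv⟩⟩ : N.G0 × N.G0))
      (Set.mem_univ (1, 1))
    exact this.trans hone
  intro f hf
  unfold PP at hf
  induction hf using Subgroup.closure_induction with
  | mem x hx =>
    obtain ⟨e, u, y, v, hu, hy, hv, rfl⟩ := hx
    rw [h2 G N D lam hl e u hu y hy v hv, hall u hu v hv, one_zpow]
  | one => exact lam_one hl
  | mul x y hx hy ihx ihy => rw [hl.mul x hx y hy, ihx, ihy, one_mul]
  | inv x hx ih =>
    have h := hl.mul x⁻¹ (inv_mem hx) x hx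
    rw [inv_mul_cancel, lam_one hl, ih, mul_one] at h
    exact h.symm

end Pool.Agent.W431.PR.LT6
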